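import Mathlib

open Polynomial

namespace Pool.Agent.Results.MP_0ef770_co.Classification

/-- The equation `x - 2y = p(z)` in positive integers is partition regular: for every
colouring of the natural numbers with finitely many colours (only the colours of the
positive integers matter) there is a solution in positive integers `x, y, z` of one colour. -/
def PartitionRegular (p : ℤ[X]) : Prop :=
  ∀ (r : ℕ) (c : ℕ → Fin r), ∃ x y z : ℕ, 0 < x ∧ 0 < y ∧ 0 < z ∧
    c x = c y ∧ c y = c z ∧ (x : ℤ) - 2 * (y : ℤ) = p.eval (z : ℤ)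

private def A (p : ℤ[X]) : ℤ := ∑ i ∈ Finset.range (p.natDegree + 1), |p.coeff i|

private theorem A_nonneg (p : ℤ[X]) : 0 ≤ A p := Finset.sum_nonneg (fun _ _ => abs_nonneg _)

private theorem eval_le (p : ℤ[X]) (z : ℕ) (hz : 0 < z) :
    |p.eval (z : ℤ)| ≤ A p * (z : ℤ) ^ p.natDegree := by
  rw [eval_eq_sum_range, A, Finset.sum_mul]
  refine (Finset.abs_sum_le_sum_abs _ _).trans (Finset.sum_le_sum ?_)
  intro i hi
  rw [abs_mul, abs_pow, abs_of_nonneg (by positivity : (0 : ℤ) ≤ z)]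
  apply mul_le_mul_of_nonneg_left _ (abs_nonneg _)
  apply pow_le_pow_right₀
  · exact_mod_cast hz
  · rw [Finset.mem_range] at hi; omega

private theorem le_eval (p : ℤ[X]) (hp : 2 ≤ p.natDegree) (z : ℕ) (hz : 0 < z)
    (hzA : 2 * A p ≤ z) : (z : ℤ) ^ p.natDegree ≤ 2 * |p.eval (z : ℤ)| := by
  obtain ⟨e, he⟩ : ∃ e, p.natDegree = e + 1 := ⟨p.natDegree - 1, by omega⟩
  have hzpos : (0 : ℤ) < z := by exact_mod_cast hz
  have h1 : p.eval (z : ℤ) = (∑ i ∈ Finset.range (e + 1), p.coeff i * (z : ℤ) ^ i)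
      + p.coeff (e + 1) * (z : ℤ) ^ (e + 1) := by
    rw [eval_eq_sum_range, he, Finset.sum_range_succ]
  have h2 : |∑ i ∈ Finset.range (e + 1), p.coeff i * (z : ℤ) ^ i| ≤ A p * (z : ℤ) ^ e := by
    have h3 : ∑ i ∈ Finset.range (e + 1), |p.coeff i| ≤ A p := by
      rw [A, he, Finset.sum_range_succ _ (e + 1)]
      linarith [abs_nonneg (p.coeff (e + 1))]
    refine le_trans ?_ (mul_le_mul_of_nonneg_right h3 (by positivity))
    rw [Finset.sum_mul]
    refine (Finset.abs_sum_le_sum_abs _ _).trans (Finset.sum_le_sum ?_)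
    intro i hi
    rw [abs_mul, abs_pow, abs_of_nonneg hzpos.le]
    apply mul_le_mul_of_nonneg_left _ (abs_nonneg _)
    apply pow_le_pow_right₀
    · exact_mod_cast hz
    · rw [Finset.mem_range] at hi; omega
  have hne : p.coeff (e + 1) ≠ 0 := by
    rw [← he]
    intro h
    have : p.leadingCoeff = 0 := h
    rw [leadingCoeff_eq_zero] at this
    rw [this] at hp
    simp at hp
  have h4 : (1 : ℤ) ≤ |p.coeff (e + 1)| := Int.one_le_abs hne
  have h5 : (z : ℤ) ^ (e + 1) ≤ |p.coeff (e + 1) * (z : ℤ) ^ (e + 1)| := by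
    rw [abs_mul, abs_of_nonneg (by positivity : (0 : ℤ) ≤ (z : ℤ) ^ (e + 1))]
    nlinarith [pow_pos hzpos (e + 1)]
  have h6 : |p.coeff (e + 1) * (z : ℤ) ^ (e + 1)|
      ≤ |p.eval (z : ℤ)| + |∑ i ∈ Finset.range (e + 1), p.coeff i * (z : ℤ) ^ i| := by
    have : p.coeff (e + 1) * (z : ℤ) ^ (e + 1)
        = p.eval (z : ℤ) - ∑ i ∈ Finset.range (e + 1), p.coeff i * (z : ℤ) ^ i := by
      rw [h1]; ring
    rw [this]
    exact abs_sub _ _
  have h7 : 2 * (A p * (z : ℤ) ^ e) ≤ (z : ℤ) ^ (e + 1) := by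
    rw [pow_succ]
    nlinarith [pow_pos hzpos e]
  rw [he]
  linarith

/-- Two numbers whose ratio lies between `sqrt 2` and `sqrt 8` differ under this colouring. -/
private def c1 (n : ℕ) : ℕ := Nat.log 2 (n ^ 2) % 4

private theorem c1_ne {x y : ℕ} (hy : 0 < y) (h1 : 2 * y ^ 2 ≤ x ^ 2) (h2 : x ^ 2 < 8 * y ^ 2) :
    c1 x ≠ c1 y := by
  have hy2 : y ^ 2 ≠ 0 := by positivity
  have a1 : Nat.log 2 (y ^ 2) + 1 ≤ Nat.log 2 (x ^ 2) := by
    rw [← Nat.log_mul_base (by norm_num) hy2]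
    exact Nat.log_mono_right (by linarith)
  have a2 : Nat.log 2 (x ^ 2) ≤ Nat.log 2 (y ^ 2) + 3 := by
    have : Nat.log 2 (y ^ 2) + 3 = Nat.log 2 (y ^ 2 * 2 * 2 * 2) := by
      rw [Nat.log_mul_base (by norm_num) (by positivity), Nat.log_mul_base (by norm_num)
        (by positivity), Nat.log_mul_base (by norm_num) hy2]
    rw [this]
    exact Nat.log_mono_right (by linarith)
  unfold c1
  omega

private def c2 (d n : ℕ) : ℕ := Nat.log d (Nat.log 2 n ^ 2) % 4

private theorem c2_ne {d w z : ℕ} (hd : 2 ≤ d) (hz : 0 < Nat.log 2 z)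
    (h1 : d * Nat.log 2 z ^ 2 ≤ Nat.log 2 w ^ 2)
    (h2 : Nat.log 2 w ^ 2 ≤ d ^ 3 * Nat.log 2 z ^ 2) : c2 d w ≠ c2 d z := by
  have hz2 : Nat.log 2 z ^ 2 ≠ 0 := by positivity
  have hd1 : 1 < d := by omega
  have a1 : Nat.log d (Nat.log 2 z ^ 2) + 1 ≤ Nat.log d (Nat.log 2 w ^ 2) := by
    rw [← Nat.log_mul_base hd1 hz2]
    exact Nat.log_mono_right (by linarith)
  have a2 : Nat.log d (Nat.log 2 w ^ 2) ≤ Nat.log d (Nat.log 2 z ^ 2) + 3 := by
    have : Nat.log d (Nat.log 2 z ^ 2) + 3 = Nat.log d (Nat.log 2 z ^ 2 * d * d * d) := by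
      rw [Nat.log_mul_base hd1 (by positivity), Nat.log_mul_base hd1
        (by positivity), Nat.log_mul_base hd1 hz2]
    rw [this]
    refine Nat.log_mono_right (h2.trans (le_of_eq (by ring)))
  unfold c2
  omega

private theorem c2_far {d w z B : ℕ} (hd : 2 ≤ d) (hlow : z ^ d ≤ 4 * w) (hw : 0 < w)
    (hup : w ≤ B * z ^ d) (hB : 0 < B)
    (hbig : 2 * (d + Nat.log 2 B + 1) + 4 ≤ Nat.log 2 z) : c2 d w ≠ c2 d z := by
  have hz0 : z ≠ 0 := by
    rintro rfl
    simp at hbig
  set l := Nat.log 2 z with hl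
  set m := Nat.log 2 w with hm
  set E := Nat.log 2 B + 1 with hE
  have hzl : 2 ^ l ≤ z := Nat.pow_log_le_self 2 hz0
  have hzu : z < 2 ^ (l + 1) := Nat.lt_pow_succ_log_self (by norm_num) z
  have hwu : w < 2 ^ (m + 1) := Nat.lt_pow_succ_log_self (by norm_num) w
  have hwl : 2 ^ m ≤ w := Nat.pow_log_le_self 2 hw.ne'
  have hBu : B < 2 ^ E := Nat.lt_pow_succ_log_self (by norm_num) B
  have b1 : d * l < m + 3 := by
    have : 2 ^ (l * d) < 2 ^ (m + 3) := by
      calc 2 ^ (l * d) = (2 ^ l) ^ d := by rw [pow_mul]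
        _ ≤ z ^ d := Nat.pow_le_pow_left hzl d
        _ ≤ 4 * w := hlow
        _ < 4 * 2 ^ (m + 1) := by omega
        _ = 2 ^ (m + 3) := by ring
    have := (Nat.pow_lt_pow_iff_right (by norm_num : 1 < 2)).mp this
    rw [mul_comm]; exact this
  have b2 : m < E + d * (l + 1) := by
    have : 2 ^ m < 2 ^ (E + (l + 1) * d) := by
      calc 2 ^ m ≤ w := hwl
        _ ≤ B * z ^ d := hup
        _ ≤ B * (2 ^ (l + 1)) ^ d := by
            apply Nat.mul_le_mul_left
            exact Nat.pow_le_pow_left hzu.le d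
        _ < 2 ^ E * (2 ^ (l + 1)) ^ d := by
            apply Nat.mul_lt_mul_of_pos_right hBu
            positivity
        _ = 2 ^ (E + (l + 1) * d) := by rw [← pow_mul, ← pow_add]
    have := (Nat.pow_lt_pow_iff_right (by norm_num : 1 < 2)).mp this
    rw [mul_comm d]; exact this
  have hbig' : 2 * (d + E) + 4 ≤ l := by omega
  have hlpos : 0 < l := by omega
  apply c2_ne hd hlpos
  all_goals rw [← hl, ← hm]
  all_goals clear_value l m E
  · -- `d * l ^ 2 ≤ m ^ 2`
    have h3 : d * l ≤ m + 2 := by omega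
    have h4 : (d * l) ^ 2 ≤ (m + 2) ^ 2 := Nat.pow_le_pow_left h3 2
    have h5 : 4 * m + 4 ≤ (d * l) ^ 2 - d * l ^ 2 := by
      have h6 : m + 1 ≤ E + d * (l + 1) := b2
      have h7 : d * l ^ 2 + 4 * (d * l) + 4 * (d + E) + 4 ≤ (d * l) ^ 2 := by
        have e1 : (d * l) ^ 2 = d * d * (l * l) := by ring
        have e2 : d * l ^ 2 = d * (l * l) := by ring
        rw [e1, e2]
        obtain ⟨f, rfl⟩ : ∃ f, d = f + 2 := ⟨d - 2, by omega⟩
        obtain ⟨g, rfl⟩ : ∃ g, l = 2 * (f + 2 + E) + 4 + g :=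
          ⟨l - (2 * (f + 2 + E) + 4), by omega⟩
        ring_nf
        nlinarith
      have h8 : d * (l + 1) = d * l + d := by ring
      omega
    have h9 : (m + 2) ^ 2 = m ^ 2 + (4 * m + 4) := by ring
    omega
  · have h3 : m ≤ d * l + (d + E) := by
      have : d * (l + 1) = d * l + d := by ring
      omega
    have h4 : 2 * m ≤ (2 * d + 1) * l := by
      have : (2 * d + 1) * l = 2 * (d * l) + l := by ring
      omega
    have h5 : (2 * m) ^ 2 ≤ ((2 * d + 1) * l) ^ 2 := Nat.pow_le_pow_left h4 2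
    have h6 : (2 * d + 1) ^ 2 ≤ 4 * d ^ 3 := by
      obtain ⟨f, rfl⟩ : ∃ f, d = f + 2 := ⟨d - 2, by omega⟩
      ring_nf
      nlinarith [Nat.zero_le (f ^ 3), Nat.zero_le (f ^ 2), Nat.zero_le f]
    have h7 : ((2 * d + 1) * l) ^ 2 ≤ 4 * d ^ 3 * l ^ 2 := by
      rw [mul_pow]
      exact Nat.mul_le_mul_right _ h6
    have h8 : (2 * m) ^ 2 = 4 * m ^ 2 := by ring
    have h9 : 4 * d ^ 3 * l ^ 2 = 4 * (d ^ 3 * l ^ 2) := by ring
    omega

private theorem sq1 {x y : ℕ} (h : 2 * y ≤ x) : 2 * y ^ 2 ≤ x ^ 2 := by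
  have := Nat.pow_le_pow_left h 2
  have e : (2 * y) ^ 2 = 4 * y ^ 2 := by ring
  omega

private theorem sq2 {x y : ℕ} (h : 7 * y ≤ 4 * x) : 2 * y ^ 2 ≤ x ^ 2 := by
  have := Nat.pow_le_pow_left h 2
  have e : (7 * y) ^ 2 = 49 * y ^ 2 := by ring
  have e' : (4 * x) ^ 2 = 16 * x ^ 2 := by ring
  omega

private theorem sq3 {x y : ℕ} (hy : 0 < y) (h : 7 * x ≤ 16 * y) : x ^ 2 < 8 * y ^ 2 := by
  have := Nat.pow_le_pow_left h 2
  have e : (7 * x) ^ 2 = 49 * x ^ 2 := by ring
  have e' : (16 * y) ^ 2 = 256 * y ^ 2 := by ring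
  have : 0 < y ^ 2 := by positivity
  omega

private theorem sq4 {x y : ℕ} (hy : 0 < y) (h : x ≤ 2 * y) : x ^ 2 < 8 * y ^ 2 := by
  have := Nat.pow_le_pow_left h 2
  have e : (2 * y) ^ 2 = 4 * y ^ 2 := by ring
  have : 0 < y ^ 2 := by positivity
  omega

private theorem not_regular (p : ℤ[X]) (hp : 2 ≤ p.natDegree)
    (hno : ∀ n : ℕ, 0 < n → p.eval (n : ℤ) ≠ -(n : ℤ)) : ¬ PartitionRegular p := by
  intro hreg
  set d := p.natDegree with hd
  obtain ⟨a, ha⟩ : ∃ a : ℕ, A p = a := Int.eq_ofNat_of_zero_le (A_nonneg p)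
  -- constants
  set B : ℕ := 8 * (a + 1) with hB
  set Z : ℕ := 2 ^ (2 * (d + Nat.log 2 B + 1) + 4) + 2 * a with hZ
  set M : ℕ := 8 * (a * Z ^ d) + Z + 1 with hM
  let c3 : ℕ → Fin (M + 1) := fun n => ⟨min n M, by omega⟩
  let col : ℕ → Fin 4 × Fin 4 × Fin (M + 1) := fun n =>
    (⟨c1 n, Nat.mod_lt _ (by norm_num)⟩, ⟨c2 d n, Nat.mod_lt _ (by norm_num)⟩, c3 n)
  let eqv := Fintype.equivFin (Fin 4 × Fin 4 × Fin (M + 1))
  obtain ⟨x, y, z, hx, hy, hz, hxy, hyz, heq⟩ := hreg _ (fun n => eqv (col n))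
  have hxy' : col x = col y := eqv.injective hxy
  have hyz' : col y = col z := eqv.injective hyz
  have e1 : c1 x = c1 y := by
    have := congrArg (fun t => t.1.val) hxy'
    exact this
  have e2 : c2 d x = c2 d y := by
    have := congrArg (fun t => t.2.1.val) hxy'
    exact this
  have e2' : c2 d y = c2 d z := by
    have := congrArg (fun t => t.2.1.val) hyz'
    exact this
  have e3 : min x M = min y M := by
    have := congrArg (fun t => t.2.2.val) hxy'
    exact this
  have e3' : min y M = min z M := by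
    have := congrArg (fun t => t.2.2.val) hyz'
    exact this
  obtain ⟨P, hP⟩ : ∃ P : ℕ, |p.eval (z : ℤ)| = P := Int.eq_ofNat_of_zero_le (abs_nonneg _)
  have hP' : |(x : ℤ) - 2 * y| = P := by rw [heq, hP]
  have hup : (P : ℤ) ≤ a * (z : ℤ) ^ d := by
    have := eval_le p z hz
    rw [hP, ha] at this
    exact this
  have hup' : P ≤ a * z ^ d := by exact_mod_cast hup
  rw [abs_eq (by positivity)] at hP'
  -- Case I
  by_cases hI : 8 * P ≤ max x (2 * y)
  · apply c1_ne hy _ _ e1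
    · rcases le_total (2 * y) x with h | h
      · exact sq1 h
      · rw [max_eq_right h] at hI
        exact sq2 (by omega)
    · rcases le_total (2 * y) x with h | h
      · rw [max_eq_left h] at hI
        exact sq3 hy (by omega)
      · exact sq4 hy h
  · push Not at hI
    -- the larger of `x`, `y` in the appropriate sense
    have hw : ∃ w : ℕ, 0 < w ∧ P ≤ 2 * w ∧ w < 8 * P ∧ c2 d w = c2 d z ∧
        x < 8 * P ∧ y < 8 * P := by
      rcases le_total (2 * y) x with h | h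
      · rw [max_eq_left h] at hI
        exact ⟨x, hx, by omega, hI, e2.trans e2', hI, by omega⟩
      · rw [max_eq_right h] at hI
        exact ⟨y, hy, by omega, by omega, e2', by omega, by omega⟩
    obtain ⟨w, hw0, hw1, hw2, hw3, hw4, hw5⟩ := hw
    by_cases hzZ : z < Z
    · -- everything is small
      have hPZ : P ≤ a * Z ^ d := by
        refine hup'.trans ?_
        apply Nat.mul_le_mul_left
        exact Nat.pow_le_pow_left hzZ.le d
      have hxM : x < M := by omega
      have hyM : y < M := by omega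
      have hzM : z < M := by
        have : 0 ≤ 8 * (a * Z ^ d) := Nat.zero_le _
        omega
      rw [min_eq_left hxM.le, min_eq_left hyM.le] at e3
      rw [min_eq_left hyM.le, min_eq_left hzM.le] at e3'
      subst e3
      subst e3'
      apply hno x hx
      rw [← heq]
      ring
    · push Not at hzZ
      have hzA : 2 * A p ≤ z := by
        rw [ha]
        have : 2 * a ≤ z := by
          have : 0 < 2 ^ (2 * (d + Nat.log 2 B + 1) + 4) := by positivity
          omega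
        exact_mod_cast this
      have hlow := le_eval p hp z hz hzA
      rw [hP, ← hd] at hlow
      have hlow' : z ^ d ≤ 2 * P := by exact_mod_cast hlow
      refine c2_far (B := B) hp (by omega) hw0 ?_ (by omega) ?_ hw3
      · have h1 : w ≤ 8 * (a * z ^ d) := by omega
        have h2 : B * z ^ d = 8 * (a * z ^ d) + 8 * z ^ d := by rw [hB]; ring
        omega
      · apply Nat.le_log_of_pow_le (by norm_num)
        omega

/-- For every integer polynomial `p` of degree at least `2`, the equation `x - 2y = p(z)` is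
partition regular if and only if it has a constant solution `x = y = z = n`, i.e. if and only
if `p(n) = -n` for some positive integer `n`. -/
theorem result (p : ℤ[X]) (hp : 2 ≤ p.natDegree) :
    PartitionRegular p ↔ ∃ n : ℕ, 0 < n ∧ p.eval (n : ℤ) = -(n : ℤ) := by
  constructor
  · intro h
    by_contra hcon
    push Not at hcon
    exact not_regular p hp hcon h
  · rintro ⟨n, hn, hpn⟩ r c
    exact ⟨n, n, n, hn, hn, hn, rfl, rfl, by rw [hpn]; ring⟩

end Pool.Agent.Results.MP_0ef770_co.Classification
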